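import Pool.Agent.MWGR.StmtsF

/-!
# Squad MWGR (problem MP_23468a_al), row JEP: alternating tails are join prime
-/

set_option autoImplicit false

namespace Pool.Agent.MWGR.H92

open Pool.Agent.Helper14_MV Pool.Agent.Helper2_MV Pool.Agent.MVO Pool.Agent.MWL Pool.Agent.MWS
  Pool.Agent.MWH Pool.Agent.MWA

/-- the family with the block `0` and the alternating tail -/
def Bl (k : ℕ) (W : List ℕ) (r : ℕ → ℕ) (t : ℕ) : List ℕ :=
  if t = 0 then W else List.replicate (r t) (if t % 2 = 1 then 1 else k + 2)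

/-- `a` before `b` -/
def W1 (b i j l : ℕ) : List ℕ := X i ++ 1 :: (X j ++ b :: X l)

/-- `b` before `a` -/
def W2 (b i j l : ℕ) : List ℕ := X i ++ b :: (X j ++ 1 :: X l)

/-! ### the permutation -/

theorem map_rep (π : ℕ → ℕ) (m c d : ℕ) (h : π c = d) :
    (List.replicate m c).map π = List.replicate m d := by
  rw [List.map_replicate, h]

theorem map_tail {k : ℕ} {π : ℕ → ℕ} (h1 : π 1 = 1) (hb : π (k + 2) = 2)
    (hf : ∀ B : ℕ → List ℕ, (asm k B).map π = (B 0).map π ++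
      (List.range k).flatMap (fun j => (3 + j) :: (B (j + 1)).map π))
    {B : ℕ → List ℕ} {r : ℕ → ℕ} (hB : ∀ t, 1 ≤ t → t ≤ k → B t =
      List.replicate (r t) (if t % 2 = 1 then 1 else k + 2)) :
    (asm k B).map π = (B 0).map π ++ altm k (fun j => r (j + 1)) := by
  rw [hf B]
  congr 1
  unfold altm
  refine List.flatMap_congr fun j hj => ?_
  rw [List.mem_range] at hj
  rw [hB (j + 1) (by omega) (by omega)]
  congr 1
  refine map_rep _ _ _ _ ?_
  by_cases h : j % 2 = 0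
  · rw [if_pos (by omega), h1, h]
  · rw [if_neg (by omega), hb]
    omega

theorem map_W1 {k : ℕ} {π : ℕ → ℕ} (h0 : π 0 = 0) (h1 : π 1 = 1) (hb : π (k + 2) = 2)
    (i j l : ℕ) (T : List ℕ) :
    (W1 (k + 2) i j l).map π ++ T = X i ++ 1 :: (X j ++ 2 :: (X l ++ T)) := by
  unfold W1
  simp [h0, h1, hb]

theorem map_W2 {k : ℕ} {π : ℕ → ℕ} (h0 : π 0 = 0) (h1 : π 1 = 1) (hb : π (k + 2) = 2)
    (i j l : ℕ) (T : List ℕ) :
    (W2 (k + 2) i j l).map π ++ T = X i ++ 2 :: (X j ++ 1 :: (X l ++ T)) := by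
  unfold W2
  simp [h0, h1, hb]

theorem altm_one (k : ℕ) : altm k (fun _ => 1) = alt k := rfl

/-! ### the projections -/

/-- keep `0`, `2` and `y`, rename `y` to `1` -/
def sg (y c : ℕ) : List ℕ := if c = 0 then [0] else if c = y then [1] else if c = 2 then [2] else []

theorem sg_rep (y m c : ℕ) (d : List ℕ) (h : sg y c = d) :
    (List.replicate m c).flatMap (sg y) = (List.replicate m d).flatten := by
  induction m with
  | zero => rfl
  | succ m ih =>
    rw [List.replicate_succ, List.flatMap_cons, ih, h, List.replicate_succ, List.flatten_cons]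

theorem sg_X (y m : ℕ) : (X m).flatMap (sg y) = X m := by
  induction m with
  | zero => rfl
  | succ m ih =>
    rw [X, List.replicate_succ, List.flatMap_cons, ih]
    rfl

/-- the projection of the tail -/
theorem proj {y : ℕ} (hy0 : y ≠ 0) (hy2 : y ≠ 2) (B : ℕ → List ℕ) :
    ∀ k, 1 ≤ k → (∀ c, 3 ≤ c → c ≤ k + 1 → c ≠ y) → (∀ t, 1 ≤ t → t ≤ k → 0 ∉ B t ∧ 2 ∉ B t) →
      ∃ L : List ℕ, (asm k B).flatMap (sg y) = (B 0).flatMap (sg y) ++ 2 :: L ∧
        (∀ c ∈ L, c = 1) ∧ ∀ t, 1 ≤ t → t ≤ k → y ∈ B t → 1 ∈ L := by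
  intro k hk
  have hbl : ∀ l : List ℕ, 0 ∉ l → 2 ∉ l → (∀ c ∈ l.flatMap (sg y), c = 1) ∧
      (y ∈ l → 1 ∈ l.flatMap (sg y)) := by
    intro l h0 h2
    refine ⟨fun c hc => ?_, fun hy => ?_⟩
    · obtain ⟨d, hd, hc⟩ := List.mem_flatMap.1 hc
      unfold sg at hc
      have d0 : d ≠ 0 := fun h => h0 (h ▸ hd)
      have d2 : d ≠ 2 := fun h => h2 (h ▸ hd)
      rw [if_neg d0, if_neg d2] at hc
      split_ifs at hc
      · simpa using hc
      · simp at hc
    · refine List.mem_flatMap.2 ⟨y, hy, ?_⟩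
      unfold sg
      rw [if_neg hy0, if_pos rfl]
      exact List.mem_singleton_self _
  induction k, hk using Nat.le_induction with
  | base =>
    intro _ hB
    obtain ⟨g1, g2⟩ := hbl (B 1) (hB 1 le_rfl le_rfl).1 (hB 1 le_rfl le_rfl).2
    refine ⟨(B 1).flatMap (sg y), ?_, g1, fun t h1 h2 hy => ?_⟩
    · show (asm 0 B ++ (0 + 2) :: B (0 + 1)).flatMap (sg y) = _
      rw [List.flatMap_append, List.flatMap_cons]
      have h2 : sg y (0 + 2) = [2] := by
        unfold sg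
        rw [if_neg (by omega), if_neg (by omega), if_pos (by omega)]
      rw [h2]
      rfl
    · obtain rfl : t = 1 := by omega
      exact g2 hy
  | succ k hk ih =>
    intro hc hB
    obtain ⟨L, e1, e2, e3⟩ := ih (fun c h1 h2 => hc c h1 (by omega))
      (fun t h1 h2 => hB t h1 (by omega))
    obtain ⟨g1, g2⟩ := hbl (B (k + 1)) (hB (k + 1) (by omega) le_rfl).1
      (hB (k + 1) (by omega) le_rfl).2
    refine ⟨L ++ (B (k + 1)).flatMap (sg y), ?_, fun c hc => ?_, fun t h1 h2 hy => ?_⟩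
    · show (asm k B ++ (k + 2) :: B (k + 1)).flatMap (sg y) = _
      rw [List.flatMap_append, List.flatMap_cons, e1]
      have h2 : sg y (k + 2) = [] := by
        unfold sg
        rw [if_neg (by omega), if_neg (hc (k + 2) (by omega) (by omega)), if_neg (by omega)]
      rw [h2]
      simp
    · rcases List.mem_append.1 hc with h | h
      · exact e2 c h
      · exact g1 c h
    · rcases Nat.lt_or_ge t (k + 1) with h | h
      · exact List.mem_append_left _ (e3 t h1 (by omega) hy)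
      · obtain rfl : t = k + 1 := by omega
        exact List.mem_append_right _ (g2 hy)

theorem proj' {y : ℕ} (hy0 : y ≠ 0) (hy2 : y ≠ 2) {B : ℕ → List ℕ} {k : ℕ} (hk : 1 ≤ k)
    (hc : ∀ c, 3 ≤ c → c ≤ k + 1 → c ≠ y) (hB : ∀ t, 1 ≤ t → t ≤ k → 0 ∉ B t ∧ 2 ∉ B t)
    {t : ℕ} (ht : 1 ≤ t) (htk : t ≤ k) (hy : y ∈ B t) :
    ∃ m, 1 ≤ m ∧ (asm k B).flatMap (sg y) = (B 0).flatMap (sg y) ++ 2 :: Y m := by
  obtain ⟨L, e1, e2, e3⟩ := proj hy0 hy2 B k hk hc hB
  refine ⟨L.length, List.length_pos_of_mem (e3 t ht htk hy), ?_⟩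
  rw [e1]
  congr 2
  exact List.eq_replicate_iff.2 ⟨rfl, e2⟩

theorem sg1_W1 {b : ℕ} (h0 : b ≠ 0) (h1 : b ≠ 1) (h2 : b ≠ 2) (i j l : ℕ) :
    (W1 b i j l).flatMap (sg 1) = X i ++ 1 :: X (j + l) := by
  unfold W1
  rw [List.flatMap_append, List.flatMap_cons, List.flatMap_append, List.flatMap_cons, sg_X, sg_X,
    sg_X]
  have e1 : sg 1 1 = [1] := rfl
  have e2 : sg 1 b = [] := by
    unfold sg
    rw [if_neg h0, if_neg h1, if_neg h2]
  rw [e1, e2, List.nil_append, X, X, X, X, List.replicate_append_replicate]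
  rfl

theorem sgb_W1 {b : ℕ} (h0 : b ≠ 0) (h1 : b ≠ 1) (i j l : ℕ) :
    (W1 b i j l).flatMap (sg b) = X (i + j) ++ 1 :: X l := by
  unfold W1
  rw [List.flatMap_append, List.flatMap_cons, List.flatMap_append, List.flatMap_cons, sg_X, sg_X,
    sg_X]
  have e1 : sg b b = [1] := by
    unfold sg
    rw [if_neg h0, if_pos rfl]
  have e2 : sg b 1 = [] := by
    unfold sg
    rw [if_neg one_ne_zero, if_neg (Ne.symm h1), if_neg (by omega)]
  rw [e1, e2, List.nil_append, ← List.append_assoc, X, X, List.replicate_append_replicate]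
  rfl

/-! ### numbers -/

theorem num {n M a b : ℕ} (hn : 1 ≤ n) (hM : M ∣ n) (h : M ∣ a + (n - 1) * b) :
    a ≡ b [MOD M] := by
  obtain ⟨m, rfl⟩ : ∃ m, n = m + 1 := ⟨n - 1, by omega⟩
  rw [Nat.add_sub_cancel] at h
  have h1 : a + m * b + b ≡ 0 + b [MOD M] := ((Nat.modEq_zero_iff_dvd).2 h).add_right b
  have h2 : a + m * b + b = a + (m + 1) * b := by ring
  have h3 : a + (m + 1) * b ≡ a + 0 [MOD M] :=
    Nat.ModEq.add_left a ((Nat.modEq_zero_iff_dvd).2 (Dvd.dvd.mul_right hM b))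
  rw [h2] at h1
  simpa using h3.symm.trans h1

theorem num2 {M i j i' j' g : ℕ} (h1 : i ≡ i' [MOD M]) (h2 : i + j ≡ i' + j' [MOD M])
    (hg : j ≡ g [MOD M]) : j' ≡ g [MOD M] := by
  have h3 : j ≡ j' [MOD M] := Nat.ModEq.add_left_cancel h1 h2
  exact h3.symm.trans hg

/-! ### counts -/

theorem deg_two {k t : ℕ} {a : ℕ → ℕ} (h0 : 1 ≤ a 0) (ht : 1 ≤ t) (htk : t ≤ k) (h : 1 ≤ a t) :
    2 ≤ deg k a := by
  unfold deg
  rw [Finset.sum_range_succ']
  have h1 := Finset.single_le_sum (f := fun j => a (j + 1)) (fun _ _ => Nat.zero_le _)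
    (Finset.mem_range.2 (show t - 1 < k by omega))
  have h2 : t - 1 + 1 = t := by omega
  rw [h2] at h1
  omega

theorem deg_zero {k : ℕ} {a : ℕ → ℕ} (h : ∀ t, 1 ≤ t → t ≤ k → a t = 0) : deg k a = a 0 := by
  unfold deg
  rw [Finset.sum_range_succ', Finset.sum_eq_zero (fun j hj => ?_), zero_add]
  rw [Finset.mem_range] at hj
  exact h (j + 1) (by omega) (by omega)

theorem deg_le0 {k : ℕ} {a : ℕ → ℕ} : a 0 ≤ deg k a := by
  unfold deg
  rw [Finset.sum_range_succ']
  exact Nat.le_add_left _ _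

theorem cX (m c : ℕ) (h : c ≠ 0) : (X m).count c = 0 := by
  rw [List.count_eq_zero, List.mem_replicate]
  exact fun h' => h h'.2

theorem cX0 (m : ℕ) : (X m).count 0 = m := List.count_replicate_self

theorem cW1_0 {b : ℕ} (h0 : b ≠ 0) (i j l : ℕ) : (W1 b i j l).count 0 = i + j + l := by
  unfold W1
  rw [List.count_append, List.count_cons, List.count_append, List.count_cons, cX0, cX0, cX0]
  simp [h0]
  omega

theorem cW1_1 {b : ℕ} (h1 : b ≠ 1) (i j l : ℕ) : (W1 b i j l).count 1 = 1 := by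
  unfold W1
  rw [List.count_append, List.count_cons, List.count_append, List.count_cons, cX _ _ one_ne_zero,
    cX _ _ one_ne_zero, cX _ _ one_ne_zero]
  simp [h1]

theorem cW1_b {b : ℕ} (h0 : b ≠ 0) (h1 : b ≠ 1) (i j l : ℕ) : (W1 b i j l).count b = 1 := by
  unfold W1
  rw [List.count_append, List.count_cons, List.count_append, List.count_cons, cX _ _ h0,
    cX _ _ h0, cX _ _ h0]
  simp [Ne.symm h1]

theorem mW1 {b i j l c : ℕ} (h : c ∈ W1 b i j l) : c = 0 ∨ c = 1 ∨ c = b := by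
  unfold W1 at h
  simp only [List.mem_append, List.mem_cons, List.mem_replicate] at h
  tauto

theorem cW2_0 {b : ℕ} (h0 : b ≠ 0) (i j l : ℕ) : (W2 b i j l).count 0 = i + j + l := by
  unfold W2
  rw [List.count_append, List.count_cons, List.count_append, List.count_cons, cX0, cX0, cX0]
  simp [h0]
  omega

theorem cW2_1 {b : ℕ} (h1 : b ≠ 1) (i j l : ℕ) : (W2 b i j l).count 1 = 1 := by
  unfold W2
  rw [List.count_append, List.count_cons, List.count_append, List.count_cons, cX _ _ one_ne_zero,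
    cX _ _ one_ne_zero, cX _ _ one_ne_zero]
  simp [h1]

theorem cW2_b {b : ℕ} (h0 : b ≠ 0) (h1 : b ≠ 1) (i j l : ℕ) : (W2 b i j l).count b = 1 := by
  unfold W2
  rw [List.count_append, List.count_cons, List.count_append, List.count_cons, cX _ _ h0,
    cX _ _ h0, cX _ _ h0]
  simp [Ne.symm h1]

theorem mW2 {b i j l c : ℕ} (h : c ∈ W2 b i j l) : c = 0 ∨ c = 1 ∨ c = b := by
  unfold W2 at h
  simp only [List.mem_append, List.mem_cons, List.mem_replicate] at h
  tauto

theorem W_ne {b : ℕ} (h0 : b ≠ 0) (h1 : b ≠ 1) {i j l i' j' l' : ℕ} :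
    W2 b i' j' l' ≠ W1 b i j l := by
  intro h
  have h2 := congrArg (List.filter (fun c => decide (c ≠ 0))) h
  have e : ∀ m, (X m).filter (fun c => decide (c ≠ 0)) = [] := fun m => by
    rw [List.filter_eq_nil_iff]
    intro c hc
    simp [(List.mem_replicate.1 hc).2]
  unfold W1 W2 at h2
  simp only [List.filter_append, e, List.nil_append] at h2
  rw [List.filter_cons_of_pos (by simp [h0]), List.filter_cons_of_pos (by simp)] at h2
  exact h1 (List.cons.inj h2).1

theorem mBl {k : ℕ} {W : List ℕ} (hW : ∀ c ∈ W, c = 0 ∨ c = 1 ∨ c = k + 2) {r : ℕ → ℕ} {t c : ℕ}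
    (h : c ∈ Bl k W r t) : c = 0 ∨ c = 1 ∨ c = k + 2 := by
  unfold Bl at h
  split_ifs at h
  · exact hW c h
  · exact Or.inr (Or.inl (List.mem_replicate.1 h).2)
  · exact Or.inr (Or.inr (List.mem_replicate.1 h).2)

theorem okBl {k : ℕ} {W : List ℕ} (hk : 2 ≤ k) (hW : ∀ c ∈ W, c = 0 ∨ c = 1 ∨ c = k + 2)
    (h0 : 2 ≤ W.count 0) (h1 : W.count 1 = 1) (hb : W.count (k + 2) = 1) :
    OkB k (Bl k W fun _ => 1) := by
  refine ⟨fun j _ c hc => ?_, fun j _ c hc => ?_⟩
  · rcases mBl hW hc with rfl | rfl | rfl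
    · exact fun h => by omega
    · exact fun h => by omega
    · exact fun h => by omega
  · rcases mBl hW hc with rfl | rfl | rfl
    · exact le_trans h0 (deg_le0 (k := k) (a := fun j => (Bl k W (fun _ => 1) j).count 0))
    · refine deg_two (t := 1) (le_of_eq h1.symm) le_rfl (by omega) ?_
      simp [Bl]
    · refine deg_two (t := 2) (le_of_eq hb.symm) (by omega) hk ?_
      simp [Bl]

theorem rep_of {l : List ℕ} {x : ℕ} (h : ∀ c ∈ l, c = x) : l = List.replicate l.length x :=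
  List.eq_replicate_iff.2 ⟨rfl, h⟩

/-! ### the row -/

theorem jep (jpig : JpigStmt) (bgb : BgbStmt) (mnb : MnbStmt) (rnm : RnmStmt) (rne : RneStmt)
    (stw : StwStmt) (frm : FrmStmt) (eal : EalStmt) (dal : DalStmt) (fal : FalStmt)
    (fes : FesFStmt) (e0t : E0tStmt) (aex : AexStmt) (ntd : NtdStmt) (ntq : NtqStmt) :
    JepStmt := by
  intro n β hR hF k g hk hg
  have hn : 1 ≤ n := hR.pos
  rcases aex n β hR (alt k) (Or.inr ⟨k, hk, rfl⟩) g hg with hall | ⟨M, hM, hex⟩
  · intro ρ σ hρ _ _ _ _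
    exact Or.inl (hall ρ hρ)
  obtain ⟨π, p0, p1, pb, hf⟩ := rne k
  have b0 : k + 2 ≠ 0 := by omega
  have b1 : k + 2 ≠ 1 := by omega
  have b2 : k + 2 ≠ 2 := by omega
  have m0 : (asm k (Bl k (W1 (k + 2) n (n + g) n) fun _ => 1)).map π = (Ed.ep k g).l n := by
    rw [map_tail (r := fun _ => 1) p1 pb hf (fun t h1 _ => by
      unfold Bl
      rw [if_neg (by omega)]), altm_one]
    exact map_W1 p0 p1 pb _ _ _ _
  have m1 : (asm k (Bl k (W2 (k + 2) (n + g) (n + (n - 1) * g) (n + g)) fun _ => 1)).map π =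
      (Ed.ep k g).r n := by
    rw [map_tail (r := fun _ => 1) p1 pb hf (fun t h1 _ => by
      unfold Bl
      rw [if_neg (by omega)]), altm_one]
    exact map_W2 p0 p1 pb _ _ _ _
  rw [← m0, ← m1]
  refine ((rnm π _ _).2 β).1 ?_
  have hbas := (bgb n β hR.toBG).1
  refine jpig β hbas.cap k _ _ (fun B => ∃ (i j l : ℕ) (r : ℕ → ℕ), 2 ≤ i + j + l ∧
    B 0 = W1 (k + 2) i j l ∧ (∀ t, 1 ≤ t → t ≤ k → 1 ≤ r t ∧
      B t = List.replicate (r t) (if t % 2 = 1 then 1 else k + 2)) ∧ j ≡ g [MOD M])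
    (okBl (by omega) (fun c hc => mW1 hc) ?_ (cW1_1 b1 _ _ _) (cW1_b b0 b1 _ _ _))
    (okBl (by omega) (fun c hc => mW2 hc) ?_ (cW2_1 b1 _ _ _) (cW2_b b0 b1 _ _ _)) ?_ ?_ ?_ ?_
  · rw [cW1_0 b0]
    omega
  · rw [cW2_0 b0]
    omega
  · refine ⟨n, n + g, n, fun _ => 1, by omega, rfl, fun t h1 _ => ⟨le_rfl, ?_⟩, ?_⟩
    · unfold Bl
      rw [if_neg (by omega)]
    · have h1 : n + g ≡ 0 + g [MOD M] := ((Nat.modEq_zero_iff_dvd).2 hM).add_right g
      rwa [zero_add] at h1
  · rintro ⟨i, j, l, r, _, h0, _⟩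
    exact W_ne b0 b1 h0
  · rintro B B' he ⟨i, j, l, r, h2, h0, h3, h4⟩
    exact ⟨i, j, l, r, h2, (he 0 (Nat.zero_le _)).symm.trans h0,
      fun t h1 ht => ⟨(h3 t h1 ht).1, (he t ht).symm.trans (h3 t h1 ht).2⟩, h4⟩
  · rintro θ hle hnc hnE B B' hB hB' _ hs' hrel ⟨i, j, l, r, h2, e0, et, hj⟩
    have hnE' : ¬ Ec n g (alt k) (RR θ) := fun h => hnE (((rnm π _ _).1 θ).2 (by
      rw [m0, m1]
      exact h))
    have hRθ := (mnb n β θ hle).2 hR
    have hBG := (mnb n β θ hle).1 hR.toBG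
    have hFE : FE n 1 (RR θ) := by
      rcases hR.fe with h | h
      · intro p q w r x a b h1 h2 h3 h4
        exact hle _ _ (h p q w r x a b h1 h2 h3 h4)
      · exact absurd h.1 hF
    have hD : ¬ Has n (FC.ofFIC θ) (Bit.D 0) := fun h =>
      hnE' ((e0t n θ hBG (dal n θ hBG h).2.2.2 g).2 hRθ.k k hk)
    have hE : ¬ Has n (FC.ofFIC θ) Bit.E := fun h =>
      hnE' ((e0t n θ hBG (eal n θ hBG h).2.2.2 g).2 hRθ.k k hk)
    have hFb : ¬ Has n (FC.ofFIC θ) Bit.F := fun h =>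
      hnE' (((fal n θ hBG).2 ((fal n θ hBG).1.1 h)).2.2.2 g k hk (fes n θ hBG hFE g))
    have S := fun c hc h => stw n β θ hbas hle hnc hD hE k B B' hB hB' hrel c hc h
    have cB0 : (B 0).count 0 = i + j + l := by rw [e0, cW1_0 b0]
    have cB1 : (B 0).count 1 = 1 := by rw [e0, cW1_1 b1]
    have cBb : (B 0).count (k + 2) = 1 := by rw [e0, cW1_b b0 b1]
    have S0 := S 0 (fun h => by omega) ⟨0, Nat.zero_le _, List.count_pos_iff.1 (by omega)⟩
    have S1 := S 1 (fun h => by omega) ⟨0, Nat.zero_le _, List.count_pos_iff.1 (by omega)⟩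
    have Sb := S (k + 2) (fun h => by omega) ⟨0, Nat.zero_le _, List.count_pos_iff.1 (by omega)⟩
    -- letters of the blocks
    have lt' : ∀ t ≤ k, ∀ c ∈ B' t, c = 0 ∨ c = 1 ∨ c = k + 2 := by
      intro t ht c hc
      obtain ⟨s, _, hs⟩ := hs' c ⟨t, ht, hc⟩
      exact mBl (fun c hc => mW1 hc) hs
    have z0 : ∀ t, 1 ≤ t → t ≤ k → 0 ∉ B' t := by
      intro t h1 ht
      have h3 := ((S0.2 t ht).2.2.2 hFb).1 (by
        show (B t).count 0 = 0
        rw [(et t h1 ht).2, List.count_eq_zero, List.mem_replicate]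
        rintro ⟨_, h⟩
        split_ifs at h <;> omega)
      exact List.count_eq_zero.1 h3
    have o1 : ∀ t, 1 ≤ t → t ≤ k → t % 2 = 1 → k + 2 ∉ B' t ∧ 1 ∈ B' t := by
      intro t h1 ht ho
      constructor
      · have h3 := ((Sb.2 t ht).2.2.2 hFb).1 (by
          show (B t).count (k + 2) = 0
          rw [(et t h1 ht).2, if_pos ho, List.count_eq_zero, List.mem_replicate]
          exact fun h => b1 h.2)
        exact List.count_eq_zero.1 h3
      · have h3 := mt ((S1.2 t ht).2.2.2 hFb).2 (by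
          show (B t).count 1 ≠ 0
          rw [(et t h1 ht).2, if_pos ho, List.count_replicate_self]
          have := (et t h1 ht).1
          omega)
        exact List.count_pos_iff.1 (Nat.pos_of_ne_zero h3)
    have o2 : ∀ t, 1 ≤ t → t ≤ k → ¬ t % 2 = 1 → 1 ∉ B' t ∧ k + 2 ∈ B' t := by
      intro t h1 ht ho
      constructor
      · have h3 := ((S1.2 t ht).2.2.2 hFb).1 (by
          show (B t).count 1 = 0
          rw [(et t h1 ht).2, if_neg ho, List.count_eq_zero, List.mem_replicate]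
          exact fun h => b1 h.2.symm)
        exact List.count_eq_zero.1 h3
      · have h3 := mt ((Sb.2 t ht).2.2.2 hFb).2 (by
          show (B t).count (k + 2) ≠ 0
          rw [(et t h1 ht).2, if_neg ho, List.count_replicate_self]
          have := (et t h1 ht).1
          omega)
        exact List.count_pos_iff.1 (Nat.pos_of_ne_zero h3)
    have et' : ∀ t, 1 ≤ t → t ≤ k → 1 ≤ (B' t).length ∧
        B' t = List.replicate (B' t).length (if t % 2 = 1 then 1 else k + 2) := by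
      intro t h1 ht
      by_cases ho : t % 2 = 1
      · obtain ⟨g1, g2⟩ := o1 t h1 ht ho
        refine ⟨List.length_pos_of_mem g2, ?_⟩
        rw [if_pos ho]
        refine rep_of fun c hc => ?_
        rcases lt' t ht c hc with rfl | h | rfl
        · exact absurd hc (z0 t h1 ht)
        · exact h
        · exact absurd hc g1
      · obtain ⟨g1, g2⟩ := o2 t h1 ht ho
        refine ⟨List.length_pos_of_mem g2, ?_⟩
        rw [if_neg ho]
        refine rep_of fun c hc => ?_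
        rcases lt' t ht c hc with rfl | rfl | h
        · exact absurd hc (z0 t h1 ht)
        · exact absurd hc g1
        · exact h
    -- block 0
    have d1 : (B' 0).count 1 = 1 :=
      ((S1.2 0 (Nat.zero_le _)).1 (fun p hp => absurd hp (Nat.not_lt_zero _))).1.1 cB1
    have db : (B' 0).count (k + 2) = 1 :=
      ((Sb.2 0 (Nat.zero_le _)).1 (fun p hp => absurd hp (Nat.not_lt_zero _))).1.1 cBb
    have d0 : 2 ≤ (B' 0).count 0 := by
      have h3 := S0.1
      rw [deg_zero (a := ty B' 0) (fun t h1 ht => List.count_eq_zero.2 (z0 t h1 ht))] at h3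
      exact h3
    obtain ⟨i', j', m', hc, hcase⟩ := frm.2 (B' 0) (k + 2) b0 b1 (lt' 0 (Nat.zero_le _)) d1 db
    have nB : ∀ t, 1 ≤ t → t ≤ k → 0 ∉ B t ∧ 2 ∉ B t := by
      intro t h1 ht
      rw [(et t h1 ht).2, List.mem_replicate, List.mem_replicate]
      constructor
      · rintro ⟨_, h⟩
        split_ifs at h <;> omega
      · rintro ⟨_, h⟩
        split_ifs at h <;> omega
    have nB' : ∀ t, 1 ≤ t → t ≤ k → 0 ∉ B' t ∧ 2 ∉ B' t := by
      intro t h1 ht
      refine ⟨z0 t h1 ht, fun h => ?_⟩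
      rcases lt' t ht 2 h with h | h | h <;> omega
    rcases hcase with hcase | hcase
    · refine ⟨i', j', m', fun t => (B' t).length, by omega, hcase, et', ?_⟩
      have q1 : ∀ (C : ℕ → List ℕ) (i j l : ℕ), C 0 = W1 (k + 2) i j l →
          (∀ t, 1 ≤ t → t ≤ k → 0 ∉ C t ∧ 2 ∉ C t) → 1 ∈ C 1 → ∃ m, 1 ≤ m ∧
            (asm k C).flatMap (sg 1) = X i ++ 1 :: (X (j + l) ++ 2 :: Y m) := by
        intro C i j l hC hn hm
        obtain ⟨m, hm1, hm2⟩ := proj' one_ne_zero (by omega) (by omega) (fun c _ _ => by omega) hn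
          le_rfl (by omega : 1 ≤ k) hm
        refine ⟨m, hm1, ?_⟩
        rw [hm2, hC, sg1_W1 b0 b1 b2, List.append_assoc, List.cons_append]
      have q2 : ∀ (C : ℕ → List ℕ) (i j l : ℕ), C 0 = W1 (k + 2) i j l →
          (∀ t, 1 ≤ t → t ≤ k → 0 ∉ C t ∧ 2 ∉ C t) → k + 2 ∈ C 2 → ∃ m, 1 ≤ m ∧
            (asm k C).flatMap (sg (k + 2)) = X (i + j) ++ 1 :: (X l ++ 2 :: Y m) := by
        intro C i j l hC hn hm
        obtain ⟨m, hm1, hm2⟩ := proj' b0 b2 (by omega) (fun c _ _ => by omega) hn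
          (by omega : 1 ≤ 2) (by omega : 2 ≤ k) hm
        refine ⟨m, hm1, ?_⟩
        rw [hm2, hC, sgb_W1 b0 b1, List.append_assoc, List.cons_append]
      have i1 : 1 ∈ B 1 := by
        rw [(et 1 le_rfl (by omega)).2, if_pos (by omega), List.mem_replicate]
        have := (et 1 le_rfl (by omega)).1
        exact ⟨by omega, rfl⟩
      have i2 : k + 2 ∈ B 2 := by
        rw [(et 2 (by omega) (by omega)).2, if_neg (by omega), List.mem_replicate]
        have := (et 2 (by omega) (by omega)).1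
        exact ⟨by omega, rfl⟩
      obtain ⟨a1, ha1, E1⟩ := q1 B i j l e0 nB i1
      obtain ⟨a2, ha2, E2⟩ := q1 B' i' j' m' hcase nB' (o1 1 le_rfl (by omega) (by omega)).2
      obtain ⟨a3, ha3, E3⟩ := q2 B i j l e0 nB i2
      obtain ⟨a4, ha4, E4⟩ := q2 B' i' j' m' hcase nB' (o2 2 (by omega) (by omega) (by omega)).2
      have R1 := RR.sub (sg 1) hrel
      have R2 := RR.sub (sg (k + 2)) hrel
      rw [E1, E2] at R1
      rw [E3, E4] at R2
      have D1 := (hex θ hle hnE').1 _ (ntd n θ hBG _ _ _ _ _ _ ha1 ha2 R1)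
      have D2 := (hex θ hle hnE').1 _ (ntd n θ hBG _ _ _ _ _ _ ha3 ha4 R2)
      exact num2 (num hn hM D1) (num hn hM D2) hj
    · exfalso
      have hm := ((rnm π _ _).1 θ).1 hrel
      rw [map_tail p1 pb hf (fun t h1 ht => (et t h1 ht).2),
        map_tail (r := fun t => (B' t).length) p1 pb hf (fun t h1 ht => (et' t h1 ht).2), e0,
        map_W1 p0 p1 pb, hcase] at hm
      have hm2 : (X i' ++ (k + 2) :: (X j' ++ 1 :: X m')).map π ++
          altm k (fun j => (B' (j + 1)).length) =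
          X i' ++ 2 :: (X j' ++ 1 :: (X m' ++ altm k (fun j => (B' (j + 1)).length))) :=
        map_W2 p0 p1 pb _ _ _ _
      rw [hm2] at hm
      exact (hex θ hle hnE').2 j hj (ntq n θ hBG k _ _ _ _ _ _ _ _ (by omega)
        (fun t ht => ⟨(et (t + 1) (by omega) (by omega)).1,
          (et' (t + 1) (by omega) (by omega)).1⟩) hm)

end Pool.Agent.MWGR.H92
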